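import Pool.Agent.Helper16.GR.Moll
import Pool.Agent.Helper13.GR.P4a
import Pool.Agent.Helper41.GR.DPBounds
import Pool.Agent.Helper66.GR.UltraLim

/-!
# Auxiliary lemmas for P6b and P14b of MP_114a94_gt
-/

set_option autoImplicit false

open scoped ContDiff Topology NNReal
open Set Filter MeasureTheory

namespace Pool.Agent.GR

open Pool.Agent.Helper25.GrimReaper

variable {n : ℕ}

/-- Uniform choice of constants for finitely many words. -/
lemma exists_unif_words {p : List (Fin n) → ℝ → Prop}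
    (hmono : ∀ w C C', C ≤ C' → p w C → p w C') (L : ℕ) (h : ∀ w, ∃ C, p w C) :
    ∃ C, 0 ≤ C ∧ ∀ w : List (Fin n), w.length ≤ L → p w C := by
  choose c hc using h
  have hfin : ({w : List (Fin n) | w.length ≤ L}).Finite := List.finite_length_le (Fin n) L
  obtain ⟨C, hC⟩ := (hfin.image c).bddAbove
  refine ⟨max C 0, le_max_right _ _, fun w hw => hmono w _ _ ?_ (hc w)⟩
  exact (hC (mem_image_of_mem c hw)).trans (le_max_left _ _)

lemma norm_fderiv_le_of_pd {f : E n → ℝ} {x : E n} {C : ℝ} (h : ∀ i, |pd i f x| ≤ C) :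
    ‖fderiv ℝ f x‖ ≤ n * C := by
  rcases isEmpty_or_nonempty (Fin n) with he | ⟨⟨i₀⟩⟩
  · have hn : n = 0 := by
      rcases n with _ | n
      · rfl
      · exact (he.false 0).elim
    subst hn
    have : fderiv ℝ f x = 0 := by
      ext w
      have hw : w = 0 := Subsingleton.elim _ _
      rw [hw]; simp
    simp [this]
  · have hC : 0 ≤ C := (abs_nonneg _).trans (h i₀)
    refine ContinuousLinearMap.opNorm_le_bound _ (by positivity) fun w => ?_
    rw [fderiv_apply_eq_sum, Real.norm_eq_abs]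
    calc |∑ i, w i * pd i f x| ≤ ∑ i, |w i * pd i f x| := Finset.abs_sum_le_sum_abs _ _
      _ ≤ ∑ _i : Fin n, ‖w‖ * C := by
          refine Finset.sum_le_sum fun i _ => ?_
          rw [abs_mul]
          refine mul_le_mul ?_ (h i) (abs_nonneg _) (norm_nonneg _)
          have := PiLp.norm_apply_le w i
          rwa [Real.norm_eq_abs] at this
      _ = n * C * ‖w‖ := by
          rw [Finset.sum_const, Finset.card_univ, Fintype.card_fin, nsmul_eq_mul]; ring

lemma lip_of_pd_bound {f : E n → ℝ} (hf : ContDiff ℝ ∞ f) {C : ℝ} (h : ∀ i x, |pd i f x| ≤ C)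
    (x y : E n) : |f x - f y| ≤ n * C * ‖x - y‖ := by
  have := Convex.norm_image_sub_le_of_norm_fderiv_le (𝕜 := ℝ) (f := f) (s := univ) (C := n * C)
    (x := y) (y := x)
    (fun z _ => (hf.differentiable (by simp)) z) (fun z _ => norm_fderiv_le_of_pd (h · z))
    convex_univ (mem_univ _) (mem_univ _)
  simpa [Real.norm_eq_abs] using this

lemma lip_of_Dw_bound {f : E n → ℝ} (hf : ContDiff ℝ ∞ f) {C : ℝ} (w : List (Fin n))
    (h : ∀ i x, |Dw (i :: w) f x| ≤ C) (x y : E n) :
    |Dw w f x - Dw w f y| ≤ n * C * ‖x - y‖ :=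
  lip_of_pd_bound (contDiff_Dw hf w) h x y

lemma contDiff_Fop {f : E n → ℝ} (hf : ContDiff ℝ ∞ f) : ContDiff ℝ ∞ (Fop f) := by
  unfold Fop gradSq
  have h1 : ∀ i, ContDiff ℝ ∞ (pd i f) := fun i => contDiff_pd hf i
  have h2 : ∀ i j, ContDiff ℝ ∞ (pd i (pd j f)) := fun i j => contDiff_pd (h1 j) i
  refine (ContDiff.sum fun i _ => h2 i i).sub (ContDiff.mul (ContDiff.inv ?_ ?_) ?_)
  · exact contDiff_const.add (ContDiff.sum fun i _ => (h1 i).pow 2)
  · intro x
    have : 0 ≤ ∑ i, (pd i f x) ^ 2 := Finset.sum_nonneg fun _ _ => sq_nonneg _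
    positivity
  · exact ContDiff.sum fun i _ => ContDiff.sum fun j _ => ((h1 i).mul (h1 j)).mul (h2 i j)

/-- The mean value inequality on an interval in the form we need. -/
lemma mvt_Icc {h k : ℝ → ℝ} {τ C : ℝ} (hd : ∀ t ∈ Icc 0 τ, HasDerivWithinAt h (k t) (Icc 0 τ) t)
    (hk : ∀ t ∈ Icc 0 τ, |k t| ≤ C) {s t : ℝ} (hs : s ∈ Icc 0 τ) (ht : t ∈ Icc 0 τ) :
    |h t - h s| ≤ C * |t - s| := by
  have := Convex.norm_image_sub_le_of_norm_hasDerivWithin_le (f := h) (f' := k) (s := Icc 0 τ)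
    (C := C) (x := s) (y := t) hd (by simpa [Real.norm_eq_abs] using hk) (convex_Icc 0 τ) hs ht
  simpa [Real.norm_eq_abs] using this

/-- Second order Taylor estimate. -/
lemma taylor_Icc {h k : ℝ → ℝ} {τ C : ℝ}
    (hd : ∀ t ∈ Icc 0 τ, HasDerivWithinAt h (k t) (Icc 0 τ) t)
    (hk : ∀ s ∈ Icc 0 τ, ∀ t ∈ Icc 0 τ, |k t - k s| ≤ C * |t - s|) {s t : ℝ}
    (hs : s ∈ Icc 0 τ) (ht : t ∈ Icc 0 τ) :
    |h s - h t - k t * (s - t)| ≤ C * |s - t| * |s - t| := by
  have hsub : uIcc t s ⊆ Icc 0 τ := ordConnected_Icc.uIcc_subset ht hs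
  have hC : 0 ≤ C ∨ s = t := by
    by_cases hst : s = t
    · exact Or.inr hst
    · left
      have h1 := (abs_nonneg _).trans (hk s hs t ht)
      have h2 : 0 < |t - s| := abs_pos.2 (sub_ne_zero.2 (Ne.symm hst))
      by_contra hc
      push Not at hc
      nlinarith
  rcases hC with hC | rfl
  · have hd' : ∀ r ∈ uIcc t s, HasDerivWithinAt (fun r => h r - k t * r) (k r - k t) (uIcc t s) r := by
      intro r hr
      have h1 := (hd r (hsub hr)).mono hsub
      have h2 : HasDerivWithinAt (fun r : ℝ => k t * r) (k t) (uIcc t s) r := by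
        simpa using ((hasDerivAt_id r).const_mul (k t)).hasDerivWithinAt
      exact h1.sub h2
    have hb : ∀ r ∈ uIcc t s, ‖k r - k t‖ ≤ C * |s - t| := by
      intro r hr
      rw [Real.norm_eq_abs]
      refine (hk t ht r (hsub hr)).trans (mul_le_mul_of_nonneg_left ?_ hC)
      exact abs_sub_left_of_mem_uIcc hr
    have := Convex.norm_image_sub_le_of_norm_hasDerivWithin_le hd' hb (convex_uIcc t s)
      left_mem_uIcc right_mem_uIcc
    rw [Real.norm_eq_abs, Real.norm_eq_abs] at this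
    calc |h s - h t - k t * (s - t)| = |h s - k t * s - (h t - k t * t)| := by
          congr 1; ring
      _ ≤ _ := this
  · simp

/-- Differentiability from a quadratic remainder estimate. -/
lemma hasDerivWithinAt_of_quadratic {h : ℝ → ℝ} {k C t : ℝ} {I : Set ℝ}
    (hq : ∀ s ∈ I, |h s - h t - k * (s - t)| ≤ C * |s - t| * |s - t|) :
    HasDerivWithinAt h k I t := by
  rw [hasDerivWithinAt_iff_isLittleO]
  rw [Asymptotics.isLittleO_iff]
  intro c hc
  have hcont : Tendsto (fun s : ℝ => |C| * |s - t|) (𝓝[I] t) (𝓝 0) := by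
    have : Continuous fun s : ℝ => |C| * |s - t| := by fun_prop
    have h1 := this.tendsto t
    simp only [sub_self, abs_zero, mul_zero] at h1
    exact h1.mono_left nhdsWithin_le_nhds
  filter_upwards [hcont.eventually (gt_mem_nhds hc), self_mem_nhdsWithin] with s hs hsI
  rw [Real.norm_eq_abs, Real.norm_eq_abs, smul_eq_mul]
  calc |h s - h t - (s - t) * k| = |h s - h t - k * (s - t)| := by rw [mul_comm k]
    _ ≤ C * |s - t| * |s - t| := hq s hsI
    _ ≤ |C| * |s - t| * |s - t| := by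
        gcongr
        exact le_abs_self C
    _ ≤ c * |s - t| := by
        apply mul_le_mul_of_nonneg_right hs.le (abs_nonneg _)

end Pool.Agent.GR
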