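import Pool.Agent.Helper34.GR.AuxLem
import Pool.Agent.Helper35.GR.LCalc2
import Pool.Agent.Helper76.GR.GradEst
import Pool.Agent.Helper6.GR.Interior
import Pool.Agent.Helper64.GR.Joint

/-!
# Passage to the limit on the slab (P14b of MP_114a94_gt)
-/

set_option autoImplicit false

open scoped ContDiff Topology NNReal
open Set Filter MeasureTheory Metric

namespace Pool.Agent.GR

open Pool.Agent.Helper25.GrimReaper

variable {n : ℕ}

/-- `D_w F(f)` is bounded in terms of the jet of `f`. -/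
lemma Fop_bound (w : List (Fin n)) (B : ℝ) : ∃ C : ℝ, 0 ≤ C ∧ ∀ (Ω : Set (E n)), IsOpen Ω →
    ∀ f : E n → ℝ, ContDiffOn ℝ ∞ f Ω → ∀ x ∈ Ω,
      (∀ w' : List (Fin n), w'.length ≤ w.length + 2 → |Dw w' f x| ≤ B) →
      |Dw w (Fop f) x| ≤ C := by
  obtain ⟨g, hg, hgeq⟩ := Dw_Fop_DP w
  obtain ⟨C, hC0, hC⟩ := DP_bound hg (w.length + 1) (by omega) B
  refine ⟨C * (1 + 0), by positivity, fun Ω hΩ f hf x hx hb => ?_⟩
  rw [hgeq Ω hΩ f hf x hx]
  have h1 := hC (jet f x) (fun w' _ hw' => hb w' (by omega))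
  have h2 : Nab (w.length + 1 + 2) (w.length + 1 + 1) (jet f x) = 0 := by
    unfold Nab
    rw [Finset.Icc_eq_empty (by omega)]
    simp
  rwa [h2] at h1

/-- `D_w F(f)` is Lipschitz in the jet of `f`. -/
lemma Fop_lip (w : List (Fin n)) (B : ℝ) : ∃ C : ℝ, 0 ≤ C ∧ ∀ (Ω : Set (E n)), IsOpen Ω →
    ∀ f g : E n → ℝ, ContDiffOn ℝ ∞ f Ω → ContDiffOn ℝ ∞ g Ω → ∀ x ∈ Ω, ∀ δ : ℝ, 0 ≤ δ →
      (∀ w' : List (Fin n), w'.length ≤ w.length + 2 → |Dw w' f x| ≤ B ∧ |Dw w' g x| ≤ B) →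
      (∀ w' : List (Fin n), w'.length ≤ w.length + 2 → |Dw w' f x - Dw w' g x| ≤ δ) →
      |Dw w (Fop f) x - Dw w (Fop g) x| ≤ C * δ := by
  obtain ⟨φ, hφ, hφeq⟩ := Dw_Fop_DP w
  obtain ⟨C, hC0, hC⟩ := DP_lipschitz hφ B
  refine ⟨C, hC0, fun Ω hΩ f g hf hg x hx δ hδ hb hd => ?_⟩
  rw [hφeq Ω hΩ f hf x hx, hφeq Ω hΩ g hg x hx]
  exact hC _ _ δ (fun w' _ hw' => hb w' (by omega)) (fun w' _ hw' => hd w' (by omega)) hδ

lemma mvt_Icc' {h k : ℝ → ℝ} {a b C : ℝ}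
    (hd : ∀ t ∈ Icc a b, HasDerivWithinAt h (k t) (Icc a b) t)
    (hk : ∀ t ∈ Icc a b, |k t| ≤ C) {s t : ℝ} (hs : s ∈ Icc a b) (ht : t ∈ Icc a b) :
    |h t - h s| ≤ C * |t - s| := by
  have := Convex.norm_image_sub_le_of_norm_hasDerivWithin_le (f := h) (f' := k) (s := Icc a b)
    (C := C) (x := s) (y := t) hd (by simpa [Real.norm_eq_abs] using hk) (convex_Icc a b) hs ht
  simpa [Real.norm_eq_abs] using this

lemma taylor_Icc' {h k : ℝ → ℝ} {a b C : ℝ}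
    (hd : ∀ t ∈ Icc a b, HasDerivWithinAt h (k t) (Icc a b) t) (hC : 0 ≤ C)
    (hk : ∀ s ∈ Icc a b, ∀ t ∈ Icc a b, |k t - k s| ≤ C * |t - s|) {s t : ℝ}
    (hs : s ∈ Icc a b) (ht : t ∈ Icc a b) :
    |h s - h t - k t * (s - t)| ≤ C * |s - t| * |s - t| := by
  have hsub : uIcc t s ⊆ Icc a b := ordConnected_Icc.uIcc_subset ht hs
  have hd' : ∀ r ∈ uIcc t s, HasDerivWithinAt (fun r => h r - k t * r) (k r - k t) (uIcc t s) r := by
    intro r hr
    have h1 := (hd r (hsub hr)).mono hsub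
    have h2 : HasDerivWithinAt (fun r : ℝ => k t * r) (k t) (uIcc t s) r := by
      simpa using ((hasDerivAt_id r).const_mul (k t)).hasDerivWithinAt
    exact h1.sub h2
  have hb : ∀ r ∈ uIcc t s, ‖k r - k t‖ ≤ C * |s - t| := by
    intro r hr
    rw [Real.norm_eq_abs]
    refine (hk t ht r (hsub hr)).trans (mul_le_mul_of_nonneg_left ?_ hC)
    exact abs_sub_left_of_mem_uIcc hr
  have := Convex.norm_image_sub_le_of_norm_hasDerivWithin_le hd' hb (convex_uIcc t s)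
    left_mem_uIcc right_mem_uIcc
  rw [Real.norm_eq_abs, Real.norm_eq_abs] at this
  calc |h s - h t - k t * (s - t)| = |h s - k t * s - (h t - k t * t)| := by
        congr 1; ring
    _ ≤ _ := this

lemma lip_of_pd_bound_on {f : E n → ℝ} (hf : ContDiff ℝ ∞ f) {C r : ℝ} {x₀ : E n}
    (h : ∀ i, ∀ z ∈ closedBall x₀ r, |pd i f z| ≤ C) {x y : E n} (hx : x ∈ closedBall x₀ r)
    (hy : y ∈ closedBall x₀ r) : |f x - f y| ≤ n * C * ‖x - y‖ := by
  have := Convex.norm_image_sub_le_of_norm_fderiv_le (𝕜 := ℝ) (f := f) (s := closedBall x₀ r)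
    (C := n * C) (x := y) (y := x)
    (fun z _ => (hf.differentiable (by simp)) z) (fun z hz => norm_fderiv_le_of_pd (h · z hz))
    (convex_closedBall x₀ r) hy hx
  simpa [Real.norm_eq_abs] using this

/-- One-sided Hölder estimate in time by comparison with paraboloids. -/
lemma time_upper {T : ℝ} {u : ℝ → E n → ℝ} (hu : IsSolOn (Icc 0 T) univ u) {x₀ : E n} {ρ L K : ℝ}
    (hρ : 0 < ρ) (hK : 0 < K) (hL : 0 ≤ L) (hLK : L < K * ρ)
    (hlip : ∀ t ∈ Icc 0 T, ∀ x ∈ closedBall x₀ ρ, |u t x - u t x₀| ≤ L * ‖x - x₀‖)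
    (hT : 0 ≤ T) : u T x₀ ≤ u 0 x₀ + L ^ 2 / (4 * K) + 2 * n * K * T := by
  -- it suffices to prove the estimate with a slightly larger speed
  have key : ∀ η > 0, u T x₀ ≤ u 0 x₀ + L ^ 2 / (4 * K) + (2 * n * K + η) * T := by
    intro η hη
    set c := 2 * n * K + η with hc
    set h : ℝ → E n → ℝ := fun r y => u r y - K * ‖y - x₀‖ ^ 2 - c * r with hh
    have hcont : ContinuousOn (fun p : ℝ × E n => h p.1 p.2) (Icc 0 T ×ˢ closedBall x₀ ρ) := by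
      have h1 : ContinuousOn (fun p : ℝ × E n => u p.1 p.2) (Icc 0 T ×ˢ closedBall x₀ ρ) :=
        (hu.cont []).mono (prod_mono le_rfl (subset_univ _))
      have h2 : Continuous (fun p : ℝ × E n => K * ‖p.2 - x₀‖ ^ 2) := by fun_prop
      have h3 : Continuous (fun p : ℝ × E n => c * p.1) := by fun_prop
      exact (h1.sub h2.continuousOn).sub h3.continuousOn
    have hcomp : IsCompact (Icc (0 : ℝ) T ×ˢ closedBall x₀ ρ) :=
      isCompact_Icc.prod (isCompact_closedBall x₀ ρ)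
    obtain ⟨⟨r, y⟩, ⟨hr, hy⟩, hmax⟩ := hcomp.exists_isMaxOn
      ⟨((0 : ℝ), x₀), ⟨⟨le_rfl, hT⟩, mem_closedBall_self hρ.le⟩⟩ hcont
    have hmax' : ∀ s ∈ Icc 0 T, ∀ z ∈ closedBall x₀ ρ, h s z ≤ h r y := fun s hs z hz =>
      hmax (a := (s, z)) ⟨hs, hz⟩
    -- interior in space
    have hyint : y ∈ ball x₀ ρ := by
      rw [mem_ball]
      refine lt_of_le_of_ne (mem_closedBall.1 hy) fun heq => ?_
      have h1 := hmax' r hr x₀ (mem_closedBall_self hρ.le)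
      have h2 := hlip r hr y hy
      have h3 : ‖y - x₀‖ = ρ := by rw [← dist_eq_norm]; exact heq
      have h4 := (abs_le.1 h2).2
      simp only [hh, h3, sub_self, norm_zero] at h1
      rw [h3] at h4
      nlinarith
    -- time `r = 0`
    have hr0 : r = 0 := by
      by_contra hne
      have hrpos : 0 < r := lt_of_le_of_ne hr.1 (Ne.symm hne)
      have hloc : IsLocalMax (h r) y := by
        filter_upwards [isOpen_ball.mem_nhds hyint] with z hz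
        exact hmax' r hr z (ball_subset_closedBall hz)
      have hJ1 := LJet_u hu hr (x := y)
      have hJ2 := (LJet.sqdist (p := gradient (u r) y) (I := Icc 0 T) (t := r) (x := y) x₀).const_mul K
      have hJ3 : LJet (gradient (u r) y) (Icc 0 T) r y (fun s _ => c * s) 0 c :=
        LJet.time (by simpa using ((hasDerivAt_id r).const_mul c).hasDerivWithinAt)
      have hJ := (hJ1.sub hJ2).sub hJ3
      obtain ⟨-, hl⟩ := LJet.max (T := T) ⟨hrpos, hr.2⟩ hJ hloc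
        (fun s hs => hmax' s ⟨hs.1, hs.2.trans hr.2⟩ y hy)
      have h5 : 0 ≤ (1 + ‖gradient (u r) y‖ ^ 2)⁻¹ * ‖gradient (u r) y‖ ^ 2 := by positivity
      have h6 : 0 ≤ K * ((1 + ‖gradient (u r) y‖ ^ 2)⁻¹ * ‖gradient (u r) y‖ ^ 2) := by positivity
      nlinarith
    subst hr0
    have h1 := hmax' T ⟨hT, le_rfl⟩ x₀ (mem_closedBall_self hρ.le)
    have h2 := (abs_le.1 (hlip 0 hr y hy)).2
    have h3 : L * ‖y - x₀‖ - K * ‖y - x₀‖ ^ 2 ≤ L ^ 2 / (4 * K) := by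
      rw [le_div_iff₀ (by positivity)]
      nlinarith [sq_nonneg (L - 2 * K * ‖y - x₀‖)]
    simp only [hh, sub_self, norm_zero] at h1
    nlinarith
  refine le_of_forall_pos_le_add fun ε hε => ?_
  rcases eq_or_lt_of_le hT with h0 | h0
  · have := key 1 one_pos
    rw [← h0] at this ⊢
    linarith
  · have := key (ε / T) (by positivity)
    have h1 : (2 * n * K + ε / T) * T = 2 * n * K * T + ε := by field_simp
    rw [h1] at this
    linarith

/-- Two-sided estimate. -/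
lemma time_modulus {T : ℝ} {u : ℝ → E n → ℝ} (hu : IsSolOn (Icc 0 T) univ u) {x₀ : E n}
    {ρ L K : ℝ} (hρ : 0 < ρ) (hK : 0 < K) (hL : 0 ≤ L) (hLK : L < K * ρ)
    (hlip : ∀ t ∈ Icc 0 T, ∀ x ∈ closedBall x₀ ρ, |u t x - u t x₀| ≤ L * ‖x - x₀‖)
    {s t : ℝ} (hs : s ∈ Icc 0 T) (ht : t ∈ Icc 0 T) :
    |u t x₀ - u s x₀| ≤ L ^ 2 / (4 * K) + 2 * n * K * |t - s| := by
  wlog hst : s ≤ t generalizing s t
  · have := this ht hs (le_of_not_ge hst)
    rwa [abs_sub_comm, abs_sub_comm t s]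
  have h1 : IsSolOn (Icc s t) univ u := hu.mono (Icc_subset_Icc hs.1 ht.2) le_rfl
  have h2 := h1.shift hs.1
  have hlip2 : ∀ r ∈ Icc 0 (t - s), ∀ x ∈ closedBall x₀ ρ,
      |u (r + s) x - u (r + s) x₀| ≤ L * ‖x - x₀‖ := fun r hr x hx =>
    hlip (r + s) ⟨by linarith [hr.1, hs.1], by linarith [hr.2, ht.2]⟩ x hx
  have h3 := time_upper h2 hρ hK hL hLK hlip2 (by linarith)
  have h4 := time_upper h2.neg hρ hK hL hLK (fun r hr x hx => by
    have := hlip2 r hr x hx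
    rw [← abs_neg]
    convert this using 2
    ring) (by linarith)
  simp only [sub_add_cancel, zero_add] at h3 h4
  rw [abs_of_nonneg (sub_nonneg.2 hst), abs_le]
  constructor <;> linarith

lemma exists_unif_words_ev {l : Filter ℕ} {q : List (Fin n) → ℝ → ℕ → Prop}
    (hmono : ∀ w C C' j, C ≤ C' → q w C j → q w C' j) (L : ℕ) (h : ∀ w, ∃ C, ∀ᶠ j in l, q w C j) :
    ∃ C, 0 ≤ C ∧ ∀ᶠ j in l, ∀ w : List (Fin n), w.length ≤ L → q w C j := by
  obtain ⟨C, hC0, hC⟩ := exists_unif_words (p := fun w C => ∀ᶠ j in l, q w C j)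
    (fun w C C' hCC h => h.mono fun j hj => hmono w C C' j hCC hj) L h
  refine ⟨C, hC0, ?_⟩
  have hfin : ({w : List (Fin n) | w.length ≤ L}).Finite := List.finite_length_le (Fin n) L
  exact (eventually_all_finite hfin).2 hC

section limit

variable {Ω : Set (E n)} {u : ℕ → ℝ → E n → ℝ} {T : ℕ → ℝ}

lemma unif_interior (hΩ : IsOpen Ω) (hT : Tendsto T atTop atTop)
    (hu : ∀ j, IsSolOn (Icc 0 (T j)) univ (u j))
    (hM : ∀ K ⊆ Ω, IsCompact K → ∀ S : ℝ, ∃ M : ℝ, ∀ᶠ j in atTop, ∀ t ∈ Icc 0 S, ∀ x ∈ K,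
      |u j t x| ≤ M)
    (hL : ∀ K ⊆ Ω, IsCompact K → ∃ M : ℝ, ∀ᶠ j in atTop, ∀ x ∈ K, gradSq (u j 0) x ≤ M)
    {K : Set (E n)} (hKΩ : K ⊆ Ω) (hK : IsCompact K) {τ S : ℝ} (hτ : 0 < τ) (w : List (Fin n)) :
    ∃ C, ∀ᶠ j in atTop, ∀ t ∈ Icc τ S, ∀ x ∈ K, |Dw w (u j t) x| ≤ C := by
  obtain ⟨δ, hδ, hsub⟩ := hK.exists_cthickening_subset_open hΩ hKΩ
  have hK' : IsCompact (cthickening δ K) := hK.cthickening
  obtain ⟨M1, hM1⟩ := hM _ hsub hK' S
  obtain ⟨M2, hM2⟩ := hL _ hsub hK'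
  obtain ⟨C, hC⟩ := interior_est (n := n) hδ (max M1 M2) S hτ w
  refine ⟨C, ?_⟩
  filter_upwards [hM1, hM2, hT.eventually_ge_atTop S] with j h1 h2 h3 t ht x hx
  have hb : closedBall x δ ⊆ cthickening δ K := closedBall_subset_cthickening hx δ
  exact hC S le_rfl (u j) x ((hu j).mono (Icc_subset_Icc le_rfl h3) le_rfl)
    (fun s hs y hy => (h1 s hs y (hb hy)).trans (le_max_left _ _))
    (fun y hy => (h2 y (hb hy)).trans (le_max_right _ _)) t ht

lemma unif_grad (hΩ : IsOpen Ω) (hT : Tendsto T atTop atTop)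
    (hu : ∀ j, IsSolOn (Icc 0 (T j)) univ (u j))
    (hM : ∀ K ⊆ Ω, IsCompact K → ∀ S : ℝ, ∃ M : ℝ, ∀ᶠ j in atTop, ∀ t ∈ Icc 0 S, ∀ x ∈ K,
      |u j t x| ≤ M)
    (hL : ∀ K ⊆ Ω, IsCompact K → ∃ M : ℝ, ∀ᶠ j in atTop, ∀ x ∈ K, gradSq (u j 0) x ≤ M)
    {K : Set (E n)} (hKΩ : K ⊆ Ω) (hK : IsCompact K) (S : ℝ) :
    ∃ C, 0 ≤ C ∧ ∀ᶠ j in atTop, ∀ t ∈ Icc 0 S, ∀ x ∈ K, ∀ i, |pd i (u j t) x| ≤ C := by
  obtain ⟨δ, hδ, hsub⟩ := hK.exists_cthickening_subset_open hΩ hKΩ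
  have hK' : IsCompact (cthickening δ K) := hK.cthickening
  obtain ⟨M1, hM1⟩ := hM _ hsub hK' S
  obtain ⟨M2, hM2⟩ := hL _ hsub hK'
  obtain ⟨C, hC⟩ := grad_est n hδ M1 M2
  refine ⟨Real.sqrt C, Real.sqrt_nonneg _, ?_⟩
  filter_upwards [hM1, hM2, hT.eventually_ge_atTop S] with j h1 h2 h3 t ht x hx i
  have hb : closedBall x δ ⊆ cthickening δ K := closedBall_subset_cthickening hx δ
  have h4 := hC S (u j) x ((hu j).mono (Icc_subset_Icc le_rfl h3) le_rfl)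
    (fun s hs y hy => h1 s hs y (hb hy)) (fun y hy => h2 y (hb hy)) t ht
  apply Real.abs_le_sqrt
  refine le_trans ?_ h4
  exact Finset.single_le_sum (f := fun i => (pd i (u j t) x) ^ 2) (fun _ _ => sq_nonneg _)
    (Finset.mem_univ i)

lemma exists_ultralim {𝒰 : Ultrafilter ℕ} {f : ℕ → ℝ} {M : ℝ}
    (h : ∀ᶠ j in (𝒰 : Filter ℕ), |f j| ≤ M) : ∃ a, Tendsto f 𝒰 (𝓝 a) := by
  have h1 : Icc (-M) M ∈ (𝒰.map f) := by
    rw [Ultrafilter.mem_map]
    filter_upwards [h] with j hj using abs_le.1 hj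
  obtain ⟨a, -, ha⟩ := isCompact_Icc.ultrafilter_le_nhds' _ h1
  exact ⟨a, by rwa [Ultrafilter.coe_map] at ha⟩

/-- The limit of the torus solutions is a graphical solution. -/
theorem limit_solution (hΩ : IsOpen Ω) (u : ℕ → ℝ → E n → ℝ) (T : ℕ → ℝ)
    (hT : Tendsto T atTop atTop) (hu : ∀ j, IsSolOn (Icc 0 (T j)) univ (u j))
    (hM : ∀ K ⊆ Ω, IsCompact K → ∀ S : ℝ, ∃ M : ℝ, ∀ᶠ j in atTop, ∀ t ∈ Icc 0 S, ∀ x ∈ K,
      |u j t x| ≤ M)
    (hL : ∀ K ⊆ Ω, IsCompact K → ∃ M : ℝ, ∀ᶠ j in atTop, ∀ x ∈ K, gradSq (u j 0) x ≤ M)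
    (u₀ : E n → ℝ) (h0 : ∀ x ∈ Ω, Tendsto (fun j => u j 0 x) atTop (𝓝 (u₀ x))) :
    ∃ v : E n → ℝ → ℝ, IsGraphicalSolution Ω v ∧ (∀ x ∈ Ω, v x 0 = u₀ x) ∧
      ∃ 𝒰 : Ultrafilter ℕ, (𝒰 : Filter ℕ) ≤ atTop ∧
        ∀ x ∈ Ω, ∀ t, 0 ≤ t → Tendsto (fun j => u j t x) 𝒰 (𝓝 (v x t)) := by
  set 𝒰 : Ultrafilter ℕ := Filter.hyperfilter ℕ with h𝒰
  have hle : (𝒰 : Filter ℕ) ≤ atTop := by
    have := Filter.hyperfilter_le_cofinite (α := ℕ)
    rwa [Nat.cofinite_eq_atTop] at this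
  have hlim : ∀ x t, ∃ a, x ∈ Ω → 0 ≤ t → Tendsto (fun j => u j t x) 𝒰 (𝓝 a) := by
    intro x t
    by_cases h : x ∈ Ω ∧ 0 ≤ t
    · obtain ⟨M, hM⟩ := hM {x} (singleton_subset_iff.2 h.1) isCompact_singleton t
      obtain ⟨a, ha⟩ := exists_ultralim (𝒰 := 𝒰) (f := fun j => u j t x) (M := M)
        ((hM.filter_mono hle).mono fun j hj => hj t ⟨h.2, le_rfl⟩ x rfl)
      exact ⟨a, fun _ _ => ha⟩
    · exact ⟨0, fun h1 h2 => absurd ⟨h1, h2⟩ h⟩
  choose v hv using hlim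
  have hball : ∀ x ∈ Ω, ∃ r > 0, closedBall x r ⊆ Ω := fun x hx =>
    nhds_basis_closedBall.mem_iff.1 (hΩ.mem_nhds hx)
  -- smoothness in space for positive times
  have hsp : ∀ t, 0 < t → ∃ g : E n → ℝ, ContDiffOn ℝ ∞ g Ω ∧ EqOn g (fun x => v x t) Ω ∧
      ∀ w : List (Fin n), ∀ x ∈ Ω, Tendsto (fun j => Dw w (u j t) x) 𝒰 (𝓝 (Dw w g x)) := by
    intro t ht
    obtain ⟨g, hg, hgl⟩ := ultralim_smooth hΩ 𝒰 (fun j => u j t)
      (by
        filter_upwards [(hT.eventually_ge_atTop t).filter_mono hle] with j hj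
        exact ((hu j).smooth t ⟨ht.le, hj⟩).mono (subset_univ _))
      (fun w K hKΩ hK => by
        obtain ⟨C, hC⟩ := unif_interior hΩ hT hu hM hL hKΩ hK (S := t) ht w
        exact ⟨C, (hC.filter_mono hle).mono fun j hj x hx => hj t ⟨le_rfl, le_rfl⟩ x hx⟩)
    exact ⟨g, hg, fun x hx => tendsto_nhds_unique (hgl [] x hx) (hv x t hx ht.le), hgl⟩
  have hvs : ∀ t, 0 < t → ContDiffOn ℝ ∞ (fun x => v x t) Ω := fun t ht => by
    obtain ⟨g, hg, hgv, -⟩ := hsp t ht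
    exact hg.congr fun x hx => (hgv hx).symm
  have hvl : ∀ t, 0 < t → ∀ w : List (Fin n), ∀ x ∈ Ω,
      Tendsto (fun j => Dw w (u j t) x) 𝒰 (𝓝 (Dw w (fun y => v y t) x)) := by
    intro t ht w x hx
    obtain ⟨g, hg, hgv, hgl⟩ := hsp t ht
    rw [← Dw_congr_on hΩ hgv w hx]
    exact hgl w x hx
  have hus : ∀ b : ℝ, ∀ᶠ j in (𝒰 : Filter ℕ), ∀ t ∈ Icc 0 b, ContDiff ℝ ∞ (u j t) := fun b => by
    filter_upwards [(hT.eventually_ge_atTop b).filter_mono hle] with j hj t ht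
    exact contDiffOn_univ.1 ((hu j).smooth t ⟨ht.1, ht.2.trans hj⟩)
  -- local package
  have L1 : ∀ x₀ ∈ Ω, ∀ r > 0, closedBall x₀ r ⊆ Ω → ∀ a b : ℝ, 0 < a → ∀ w : List (Fin n), ∃ C,
      ∀ᶠ j in (𝒰 : Filter ℕ), ∀ t ∈ Icc a b, ∀ x ∈ closedBall x₀ r, |Dw w (u j t) x| ≤ C := by
    intro x₀ hx₀ r hr hsub a b ha w
    obtain ⟨C, hC⟩ := unif_interior hΩ hT hu hM hL hsub (isCompact_closedBall x₀ r) (S := b) ha w
    exact ⟨C, hC.filter_mono hle⟩
  have L1' : ∀ x₀ ∈ Ω, ∀ r > 0, closedBall x₀ r ⊆ Ω → ∀ a b : ℝ, 0 < a → ∀ L : ℕ, ∃ C, 0 ≤ C ∧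
      ∀ᶠ j in (𝒰 : Filter ℕ), ∀ w : List (Fin n), w.length ≤ L →
        ∀ t ∈ Icc a b, ∀ x ∈ closedBall x₀ r, |Dw w (u j t) x| ≤ C := by
    intro x₀ hx₀ r hr hsub a b ha L
    exact exists_unif_words_ev
      (q := fun w C j => ∀ t ∈ Icc a b, ∀ x ∈ closedBall x₀ r, |Dw w (u j t) x| ≤ C)
      (fun w C C' j hCC h t ht x hx => (h t ht x hx).trans hCC) L
      (L1 x₀ hx₀ r hr hsub a b ha)
  have L2 : ∀ x₀ ∈ Ω, ∀ r > 0, closedBall x₀ r ⊆ Ω → ∀ a b : ℝ, 0 < a → ∀ w : List (Fin n), ∃ C,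
      0 ≤ C ∧ ∀ᶠ j in (𝒰 : Filter ℕ), ∀ t ∈ Icc a b, ∀ x ∈ closedBall x₀ r,
        ∀ y ∈ closedBall x₀ r, |Dw w (u j t) x - Dw w (u j t) y| ≤ C * ‖x - y‖ := by
    intro x₀ hx₀ r hr hsub a b ha w
    obtain ⟨C, hC0, hC⟩ := L1' x₀ hx₀ r hr hsub a b ha (w.length + 1)
    refine ⟨n * C, by positivity, ?_⟩
    filter_upwards [hC, hus b] with j hj hjs t ht x hx y hy
    exact lip_of_pd_bound_on (contDiff_Dw (hjs t ⟨ha.le.trans ht.1, ht.2⟩) w)
      (fun i z hz => hj (i :: w) (by simp) t ht z hz) hx hy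
  have L3 : ∀ x₀ ∈ Ω, ∀ r > 0, closedBall x₀ r ⊆ Ω → ∀ a b : ℝ, 0 < a → ∀ w : List (Fin n), ∃ C,
      ∀ᶠ j in (𝒰 : Filter ℕ), ∀ s ∈ Icc a b, ∀ t ∈ Icc a b, ∀ x ∈ closedBall x₀ r,
        |Dw w (u j t) x - Dw w (u j s) x| ≤ C * |t - s| := by
    intro x₀ hx₀ r hr hsub a b ha w
    obtain ⟨B, hB0, hB⟩ := L1' x₀ hx₀ r hr hsub a b ha (w.length + 2)
    obtain ⟨C, hC0, hC⟩ := Fop_bound w B
    refine ⟨C, ?_⟩
    filter_upwards [hB, hus b, (hT.eventually_ge_atTop b).filter_mono hle] with j hj hjs hjT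
      s hs t ht x hx
    have hmono : Icc a b ⊆ Icc 0 (T j) := Icc_subset_Icc ha.le hjT
    exact mvt_Icc' (h := fun r => Dw w (u j r) x) (k := fun r => Dw w (Fop (u j r)) x)
      (fun q hq => ((hu j).deriv w q (hmono hq) x (mem_univ x)).mono hmono)
      (fun q hq => hC univ isOpen_univ _ (hjs q ⟨ha.le.trans hq.1, hq.2⟩).contDiffOn x (mem_univ x)
        (fun w' hw' => hj w' hw' q hq x hx)) hs ht
  have L3' : ∀ x₀ ∈ Ω, ∀ r > 0, closedBall x₀ r ⊆ Ω → ∀ a b : ℝ, 0 < a → ∀ L : ℕ, ∃ C, 0 ≤ C ∧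
      ∀ᶠ j in (𝒰 : Filter ℕ), ∀ w : List (Fin n), w.length ≤ L →
        ∀ s ∈ Icc a b, ∀ t ∈ Icc a b, ∀ x ∈ closedBall x₀ r,
          |Dw w (u j t) x - Dw w (u j s) x| ≤ C * |t - s| := by
    intro x₀ hx₀ r hr hsub a b ha L
    exact exists_unif_words_ev
      (q := fun w C j => ∀ s ∈ Icc a b, ∀ t ∈ Icc a b, ∀ x ∈ closedBall x₀ r,
        |Dw w (u j t) x - Dw w (u j s) x| ≤ C * |t - s|)
      (fun w C C' j hCC h s hs t ht x hx => (h s hs t ht x hx).trans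
        (mul_le_mul_of_nonneg_right hCC (abs_nonneg _))) L
      (L3 x₀ hx₀ r hr hsub a b ha)
  have L4 : ∀ x₀ ∈ Ω, ∀ r > 0, closedBall x₀ r ⊆ Ω → ∀ a b : ℝ, 0 < a → ∀ w : List (Fin n), ∃ C,
      0 ≤ C ∧ ∀ᶠ j in (𝒰 : Filter ℕ), ∀ s ∈ Icc a b, ∀ t ∈ Icc a b, ∀ x ∈ closedBall x₀ r,
        |Dw w (Fop (u j t)) x - Dw w (Fop (u j s)) x| ≤ C * |t - s| := by
    intro x₀ hx₀ r hr hsub a b ha w
    obtain ⟨B, hB0, hB⟩ := L1' x₀ hx₀ r hr hsub a b ha (w.length + 2)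
    obtain ⟨D, hD0, hD⟩ := L3' x₀ hx₀ r hr hsub a b ha (w.length + 2)
    obtain ⟨C, hC0, hC⟩ := Fop_lip w B
    refine ⟨C * D, by positivity, ?_⟩
    filter_upwards [hB, hD, hus b] with j hj hjD hjs s hs t ht x hx
    rw [mul_assoc]
    exact hC univ isOpen_univ _ _ (hjs t ⟨ha.le.trans ht.1, ht.2⟩).contDiffOn
      (hjs s ⟨ha.le.trans hs.1, hs.2⟩).contDiffOn x (mem_univ x) (D * |t - s|) (by positivity)
      (fun w' hw' => ⟨hj w' hw' t ht x hx, hj w' hw' s hs x hx⟩)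
      (fun w' hw' => hjD w' hw' s hs t ht x hx)
  have hGl : ∀ t, 0 < t → ∀ w : List (Fin n), ∀ x ∈ Ω,
      Tendsto (fun j => Dw w (Fop (u j t)) x) 𝒰 (𝓝 (Dw w (Fop (fun y => v y t)) x)) := by
    intro t ht w x hx
    obtain ⟨g, hg, hgeq⟩ := Dw_Fop_DP w
    rw [hgeq Ω hΩ _ (hvs t ht) x hx]
    have h1 : Tendsto (fun j => jet (u j t) x) 𝒰 (𝓝 (jet (fun y => v y t) x)) := by
      rw [tendsto_pi_nhds]
      intro w'
      exact hvl t ht w' x hx
    have h2 := ((DP_continuous hg).tendsto _).comp h1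
    refine h2.congr' ?_
    filter_upwards [hus t] with j hj
    rw [hgeq univ isOpen_univ _ (hj t ⟨ht.le, le_rfl⟩).contDiffOn x (mem_univ x)]
    rfl
  -- the limit solves the equation for positive times
  have hsol : IsSolOn (Ioi 0) Ω (fun t x => v x t) := by
    refine ⟨fun t ht => hvs t ht, fun w => ?_, fun w t ht x hx => ?_⟩
    · -- joint continuity of the derivatives
      rintro ⟨t, x⟩ ⟨ht, hx⟩
      have ht' : (0 : ℝ) < t := ht
      obtain ⟨r, hr, hsub⟩ := hball x hx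
      obtain ⟨C1, hC1, hC1'⟩ := L2 x hx r hr hsub (t / 2) (t + 1) (by linarith) w
      obtain ⟨C2, hC2'⟩ := L3 x hx r hr hsub (t / 2) (t + 1) (by linarith) w
      have key : ∀ s ∈ Icc (t / 2) (t + 1), ∀ y ∈ closedBall x r,
          |Dw w (fun z => v z s) y - Dw w (fun z => v z t) x| ≤ C1 * ‖y - x‖ + |C2| * |s - t| := by
        intro s hs y hy
        have hs0 : 0 < s := by linarith [hs.1]
        have h2 : Tendsto (fun j => |Dw w (u j s) y - Dw w (u j t) x|) 𝒰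
            (𝓝 |Dw w (fun z => v z s) y - Dw w (fun z => v z t) x|) :=
          ((hvl s hs0 w y (hsub hy)).sub (hvl t ht' w x hx)).abs
        refine le_of_tendsto h2 ?_
        filter_upwards [hC1', hC2'] with j h3 h4
        calc |Dw w (u j s) y - Dw w (u j t) x|
            ≤ |Dw w (u j s) y - Dw w (u j s) x| + |Dw w (u j s) x - Dw w (u j t) x| :=
              abs_sub_le _ _ _
          _ ≤ C1 * ‖y - x‖ + C2 * |s - t| :=
              add_le_add (h3 s hs y hy x (mem_closedBall_self hr.le))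
                (h4 t ⟨by linarith, by linarith⟩ s hs x (mem_closedBall_self hr.le))
          _ ≤ _ := by gcongr; exact le_abs_self _
      apply ContinuousAt.continuousWithinAt
      rw [ContinuousAt, tendsto_iff_dist_tendsto_zero]
      have hb : Tendsto (fun p : ℝ × E n => C1 * ‖p.2 - x‖ + |C2| * |p.1 - t|) (𝓝 (t, x)) (𝓝 0) := by
        have hc : Continuous (fun p : ℝ × E n => C1 * ‖p.2 - x‖ + |C2| * |p.1 - t|) := by fun_prop
        simpa using hc.tendsto (t, x)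
      refine squeeze_zero' (Eventually.of_forall fun _ => dist_nonneg) ?_ hb
      have hn : Icc (t / 2) (t + 1) ×ˢ closedBall x r ∈ 𝓝 ((t, x) : ℝ × E n) :=
        prod_mem_nhds (Icc_mem_nhds (by linarith) (by linarith)) (closedBall_mem_nhds x hr)
      filter_upwards [hn] with p hp
      rw [Real.dist_eq]
      exact key p.1 hp.1 p.2 hp.2
    · -- the time derivative
      have ht' : (0 : ℝ) < t := ht
      obtain ⟨r, hr, hsub⟩ := hball x hx
      obtain ⟨C, hC0, hC⟩ := L4 x hx r hr hsub (t / 2) (t + 1) (by linarith) w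
      have htI : t ∈ Icc (t / 2) (t + 1) := ⟨by linarith, by linarith⟩
      have hq : HasDerivWithinAt (fun s => Dw w (fun y => v y s) x)
          (Dw w (Fop (fun y => v y t)) x) (Icc (t / 2) (t + 1)) t := by
        refine hasDerivWithinAt_of_quadratic (C := C) fun s hs => ?_
        have hs0 : 0 < s := by linarith [hs.1]
        have h2 : Tendsto (fun j => |Dw w (u j s) x - Dw w (u j t) x -
            Dw w (Fop (u j t)) x * (s - t)|) 𝒰
            (𝓝 |Dw w (fun y => v y s) x - Dw w (fun y => v y t) x -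
              Dw w (Fop (fun y => v y t)) x * (s - t)|) :=
          (((hvl s hs0 w x hx).sub (hvl t ht' w x hx)).sub ((hGl t ht' w x hx).mul_const _)).abs
        refine le_of_tendsto h2 ?_
        filter_upwards [hC, (hT.eventually_ge_atTop (t + 1)).filter_mono hle] with j hj hjT
        have hmono : Icc (t / 2) (t + 1) ⊆ Icc 0 (T j) := Icc_subset_Icc (by linarith) hjT
        exact taylor_Icc' (h := fun r => Dw w (u j r) x) (k := fun r => Dw w (Fop (u j r)) x)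
          (fun q hq => ((hu j).deriv w q (hmono hq) x (mem_univ x)).mono hmono) hC0
          (fun q hq q' hq' => hj q hq q' hq' x (mem_closedBall_self hr.le)) hs htI
      exact (hq.hasDerivAt (Icc_mem_nhds (by linarith) (by linarith))).hasDerivWithinAt
  refine ⟨v, ⟨contDiffOn_of_isSolOn hΩ hsol, ?_, fun x hx t ht => ?_⟩, fun x hx => ?_, 𝒰, hle,
    fun x hx t ht => hv x t hx ht⟩
  · -- continuity up to `t = 0`
    rintro ⟨x, t⟩ ⟨hx, ht⟩
    have ht' : (0 : ℝ) ≤ t := ht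
    obtain ⟨r, hr, hsub⟩ := hball x hx
    obtain ⟨C, hC0, hC⟩ := unif_grad hΩ hT hu hM hL hsub (isCompact_closedBall x r) (t + 1)
    set L : ℝ := n * C with hLdef
    have hL0 : 0 ≤ L := by positivity
    have hlip : ∀ᶠ j in (𝒰 : Filter ℕ), ∀ s ∈ Icc 0 (t + 1), ∀ y ∈ closedBall x r,
        ∀ z ∈ closedBall x r, |u j s y - u j s z| ≤ L * ‖y - z‖ := by
      filter_upwards [hC.filter_mono hle, hus (t + 1)] with j hj hjs s hs y hy z hz
      exact lip_of_pd_bound_on (hjs s hs) (fun i z hz => hj s hs z hz i) hy hz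
    have key : ∀ K : ℝ, 0 < K → L < K * r → ∀ s ∈ Icc 0 (t + 1), ∀ y ∈ closedBall x r,
        |v y s - v x t| ≤ L * ‖y - x‖ + (L ^ 2 / (4 * K) + 2 * n * K * |s - t|) := by
      intro K hK hLK s hs y hy
      have h2 : Tendsto (fun j => |u j s y - u j t x|) 𝒰 (𝓝 |v y s - v x t|) :=
        ((hv y s (hsub hy) hs.1).sub (hv x t hx ht')).abs
      refine le_of_tendsto h2 ?_
      filter_upwards [hlip, (hT.eventually_ge_atTop (t + 1)).filter_mono hle] with j hj hjT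
      have hsol' : IsSolOn (Icc 0 (t + 1)) univ (u j) :=
        (hu j).mono (Icc_subset_Icc le_rfl hjT) le_rfl
      have h3 := time_modulus hsol' hr hK hL0 hLK
        (fun q hq z hz => hj q hq z hz x (mem_closedBall_self hr.le))
        (s := t) (t := s) ⟨ht', by linarith⟩ hs
      calc |u j s y - u j t x| ≤ |u j s y - u j s x| + |u j s x - u j t x| := abs_sub_le _ _ _
        _ ≤ _ := add_le_add (hj s hs y hy x (mem_closedBall_self hr.le)) h3
    rw [ContinuousWithinAt, Metric.tendsto_nhds]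
    intro ε hε
    -- choose `K`
    set K : ℝ := (L + 1) / r + L ^ 2 / ε + 1 with hKdef
    have hK : 0 < K := by positivity
    have hLK : L < K * r := by
      have : (L + 1) / r * r = L + 1 := by field_simp
      have h1 : 0 ≤ (L ^ 2 / ε + 1) * r := by positivity
      calc L < L + 1 := by linarith
        _ = (L + 1) / r * r := this.symm
        _ ≤ (L + 1) / r * r + (L ^ 2 / ε + 1) * r := by linarith
        _ = K * r := by rw [hKdef]; ring
    have hKε : L ^ 2 / (4 * K) ≤ ε / 4 := by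
      rw [div_le_div_iff₀ (by positivity) (by norm_num)]
      have h1 : L ^ 2 ≤ K * ε := by
        have h2 : L ^ 2 / ε * ε = L ^ 2 := by field_simp
        have h3 : 0 ≤ ((L + 1) / r + 1) * ε := by positivity
        calc L ^ 2 = L ^ 2 / ε * ε := h2.symm
          _ ≤ L ^ 2 / ε * ε + ((L + 1) / r + 1) * ε := by linarith
          _ = K * ε := by rw [hKdef]; ring
      nlinarith
    have hb : Tendsto (fun p : E n × ℝ => L * ‖p.1 - x‖ + (L ^ 2 / (4 * K) + 2 * n * K * |p.2 - t|))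
        (𝓝[Ω ×ˢ Ici 0] (x, t)) (𝓝 (L ^ 2 / (4 * K))) := by
      have hc : Continuous (fun p : E n × ℝ =>
        L * ‖p.1 - x‖ + (L ^ 2 / (4 * K) + 2 * n * K * |p.2 - t|)) := by fun_prop
      have := hc.tendsto (x, t)
      simp only [sub_self, norm_zero, mul_zero, abs_zero, zero_add, add_zero] at this
      exact this.mono_left nhdsWithin_le_nhds
    have hlt : L ^ 2 / (4 * K) < ε := by linarith
    have hn : closedBall x r ×ˢ Iic (t + 1) ∈ 𝓝[Ω ×ˢ Ici 0] ((x, t) : E n × ℝ) :=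
      mem_nhdsWithin_of_mem_nhds
        (prod_mem_nhds (closedBall_mem_nhds x hr) (Iic_mem_nhds (by linarith)))
    filter_upwards [hb.eventually (gt_mem_nhds hlt), hn, self_mem_nhdsWithin] with p hp hp1 hp2
    rw [Real.dist_eq]
    exact (key K hK hLK p.2 ⟨hp2.2, hp1.2⟩ p.1 hp1.1).trans_lt hp
  · -- the equation
    have h1 := (hsol.deriv [] t ht x hx).hasDerivAt (Ioi_mem_nhds ht)
    have h2 : ContDiffAt ℝ 2 (fun y => v y t) x :=
      ((hvs t ht).contDiffAt (hΩ.mem_nhds hx)).of_le (by norm_cast)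
    rw [mcfOperator_eq_Fop h2]
    exact h1.deriv
  · exact tendsto_nhds_unique (hv x 0 hx le_rfl) ((h0 x hx).mono_left hle)

end limit

end Pool.Agent.GR
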