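import Pool.Agent.Helper34.GR.AuxLem
import Pool.Agent.Helper41.GR.Approx
import Pool.Agent.Helper76.GR.ApproxBounds

/-!
# Local existence on the torus (P6b of MP_114a94_gt)
-/

set_option autoImplicit false

open scoped ContDiff Topology NNReal
open Set Filter MeasureTheory

namespace Pool.Agent.GR

open Pool.Agent.Helper25.GrimReaper

/-- Local existence. -/
theorem local_existence {P : ℝ} (hP : 0 < P) (n : ℕ) (M : ℝ) : ∃ τ : ℝ, 0 < τ ∧
    ∀ f : E n → ℝ, ContDiff ℝ ∞ f → Per P f →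
      (∀ w : List (Fin n), w.length ≤ 2 * n + 10 → ∀ x, |Dw w f x| ≤ M) →
      ∃ u : ℝ → E n → ℝ, IsSolOn (Icc 0 τ) univ u ∧ u 0 = f ∧ ∀ t ∈ Icc 0 τ, Per P (u t) := by
  obtain ⟨τ, hτ, hb⟩ := approx_bounds (P := P) hP n M
  refine ⟨τ, hτ, fun f hf hfp hfb => ?_⟩
  have hbd := hb f hf hfp hfb
  -- the approximate solutions
  have hε : ∀ j : ℕ, (0 : ℝ) < 1 / ((j : ℝ) + 1) := fun j => by positivity
  have hε1 : ∀ j : ℕ, 1 / ((j : ℝ) + 1) ≤ 1 := fun j => by
    rw [div_le_one (by positivity)]; linarith [Nat.cast_nonneg (α := ℝ) j]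
  have m : ∀ j : ℕ, Mollifier n (1 / ((j : ℝ) + 1)) := fun j => (exists_mollifier n (hε j)).some
  choose U hU using fun j : ℕ => exists_approx (m j) hP hf hfp hτ.le
  -- uniform bounds
  have hUb : ∀ w : List (Fin n), ∃ C, ∀ j, ∀ t ∈ Icc 0 τ, ∀ x, |Dw w (U j t) x| ≤ C := by
    intro w
    obtain ⟨C, hC⟩ := hbd w
    exact ⟨C, fun j => hC _ (hε j) (hε1 j) (m j) (U j) (hU j)⟩
  have hUs : ∀ j, ∀ t ∈ Icc 0 τ, ContDiff ℝ ∞ (U j t) := fun j => (hU j).smooth
  -- `V = J U`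
  have hVs : ∀ j, ∀ t ∈ Icc 0 τ, ContDiff ℝ ∞ ((m j).J (U j t)) := fun j t ht =>
    J_contDiff (m j) (hUs j t ht).continuous
  have hVD : ∀ j, ∀ t ∈ Icc 0 τ, ∀ w, Dw w ((m j).J (U j t)) = (m j).J (Dw w (U j t)) :=
    fun j t ht w => J_Dw (m j) (hUs j t ht) w
  have hVb : ∀ w : List (Fin n), ∃ C, ∀ j, ∀ t ∈ Icc 0 τ, ∀ x,
      |Dw w ((m j).J (U j t)) x| ≤ C := by
    intro w
    obtain ⟨C, hC⟩ := hUb w
    refine ⟨C, fun j t ht x => ?_⟩
    rw [hVD j t ht w]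
    exact J_abs_le (m j) (contDiff_Dw (hUs j t ht) w).continuous (hC j t ht) x
  -- `G = F(V)`
  have hGs : ∀ j, ∀ t ∈ Icc 0 τ, ContDiff ℝ ∞ (Fop ((m j).J (U j t))) := fun j t ht =>
    contDiff_Fop (hVs j t ht)
  have hGb : ∀ w : List (Fin n), ∃ C, ∀ j, ∀ t ∈ Icc 0 τ, ∀ x,
      |Dw w (Fop ((m j).J (U j t))) x| ≤ C := by
    intro w
    obtain ⟨g, hg, hgeq⟩ := Dw_Fop_DP w
    obtain ⟨B, hB0, hB⟩ := exists_unif_words
      (p := fun w C => ∀ j, ∀ t ∈ Icc 0 τ, ∀ x, |Dw w ((m j).J (U j t)) x| ≤ C)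
      (fun w C C' hCC h j t ht x => (h j t ht x).trans hCC) (w.length + 2) hVb
    obtain ⟨C, hC0, hC⟩ := DP_bound hg (w.length + 1) (by omega) B
    refine ⟨C * (1 + 0), fun j t ht x => ?_⟩
    rw [hgeq univ isOpen_univ _ (hVs j t ht).contDiffOn x (mem_univ x)]
    have h1 := hC (jet ((m j).J (U j t)) x) (fun w' _ hw' => hB w' (by omega) j t ht x)
    have h2 : Nab (w.length + 1 + 2) (w.length + 1 + 1) (jet ((m j).J (U j t)) x) = 0 := by
      unfold Nab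
      rw [Finset.Icc_eq_empty (by omega)]
      simp
    rwa [h2] at h1
  -- `W = J G`
  have hWD : ∀ j, ∀ t ∈ Icc 0 τ, ∀ w, Dw w ((m j).J (Fop ((m j).J (U j t)))) =
      (m j).J (Dw w (Fop ((m j).J (U j t)))) := fun j t ht w => J_Dw (m j) (hGs j t ht) w
  have hWb : ∀ w : List (Fin n), ∃ C, ∀ j, ∀ t ∈ Icc 0 τ, ∀ x,
      |Dw w ((m j).J (Fop ((m j).J (U j t)))) x| ≤ C := by
    intro w
    obtain ⟨C, hC⟩ := hGb w
    refine ⟨C, fun j t ht x => ?_⟩
    rw [hWD j t ht w]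
    exact J_abs_le (m j) (contDiff_Dw (hGs j t ht) w).continuous (hC j t ht) x
  -- Lipschitz continuity in time
  have hUt : ∀ w : List (Fin n), ∃ C, ∀ j, ∀ s ∈ Icc 0 τ, ∀ t ∈ Icc 0 τ, ∀ x,
      |Dw w (U j t) x - Dw w (U j s) x| ≤ C * |t - s| := by
    intro w
    obtain ⟨C, hC⟩ := hWb w
    exact ⟨C, fun j s hs t ht x => mvt_Icc (fun r hr => (hU j).deriv w r hr x)
      (fun r hr => hC j r hr x) hs ht⟩
  have hVt : ∀ w : List (Fin n), ∃ C, ∀ j, ∀ s ∈ Icc 0 τ, ∀ t ∈ Icc 0 τ, ∀ x,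
      |Dw w ((m j).J (U j t)) x - Dw w ((m j).J (U j s)) x| ≤ C * |t - s| := by
    intro w
    obtain ⟨C, hC⟩ := hUt w
    refine ⟨C, fun j s hs t ht x => ?_⟩
    have c1 := (contDiff_Dw (hUs j t ht) w).continuous
    have c2 := (contDiff_Dw (hUs j s hs) w).continuous
    rw [hVD j t ht w, hVD j s hs w]
    have h1 := J_sub (m j) c1 c2
    have h2 := congrFun h1 x
    rw [← h2]
    exact J_abs_le (m j) (c1.sub c2) (hC j s hs t ht) x
  have hGt : ∀ w : List (Fin n), ∃ C, ∀ j, ∀ s ∈ Icc 0 τ, ∀ t ∈ Icc 0 τ, ∀ x,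
      |Dw w (Fop ((m j).J (U j t))) x - Dw w (Fop ((m j).J (U j s))) x| ≤ C * |t - s| := by
    intro w
    obtain ⟨g, hg, hgeq⟩ := Dw_Fop_DP w
    obtain ⟨B, hB0, hB⟩ := exists_unif_words
      (p := fun w C => ∀ j, ∀ t ∈ Icc 0 τ, ∀ x, |Dw w ((m j).J (U j t)) x| ≤ C)
      (fun w C C' hCC h j t ht x => (h j t ht x).trans hCC) (w.length + 2) hVb
    obtain ⟨D, hD0, hD⟩ := exists_unif_words
      (p := fun w C => ∀ j, ∀ s ∈ Icc 0 τ, ∀ t ∈ Icc 0 τ, ∀ x,
        |Dw w ((m j).J (U j t)) x - Dw w ((m j).J (U j s)) x| ≤ C * |t - s|)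
      (fun w C C' hCC h j s hs t ht x => (h j s hs t ht x).trans
        (mul_le_mul_of_nonneg_right hCC (abs_nonneg _))) (w.length + 2) hVt
    obtain ⟨C, hC0, hC⟩ := DP_lipschitz hg B
    refine ⟨C * D, fun j s hs t ht x => ?_⟩
    rw [hgeq univ isOpen_univ _ (hVs j t ht).contDiffOn x (mem_univ x),
      hgeq univ isOpen_univ _ (hVs j s hs).contDiffOn x (mem_univ x), mul_assoc]
    exact hC _ _ (D * |t - s|)
      (fun w' _ hw' => ⟨hB w' (by omega) j t ht x, hB w' (by omega) j s hs x⟩)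
      (fun w' _ hw' => hD w' (by omega) j s hs t ht x) (by positivity)
  have hWt : ∀ w : List (Fin n), ∃ C, ∀ j, ∀ s ∈ Icc 0 τ, ∀ t ∈ Icc 0 τ, ∀ x,
      |Dw w ((m j).J (Fop ((m j).J (U j t)))) x - Dw w ((m j).J (Fop ((m j).J (U j s)))) x|
        ≤ C * |t - s| := by
    intro w
    obtain ⟨C, hC⟩ := hGt w
    refine ⟨C, fun j s hs t ht x => ?_⟩
    have c1 := (contDiff_Dw (hGs j t ht) w).continuous
    have c2 := (contDiff_Dw (hGs j s hs) w).continuous
    rw [hWD j t ht w, hWD j s hs w]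
    have h1 := J_sub (m j) c1 c2
    have h2 := congrFun h1 x
    rw [← h2]
    exact J_abs_le (m j) (c1.sub c2) (hC j s hs t ht) x
  -- the ultralimit
  set 𝒰 : Ultrafilter ℕ := Filter.hyperfilter ℕ with h𝒰
  have hle : (𝒰 : Filter ℕ) ≤ atTop := by
    have := Filter.hyperfilter_le_cofinite (α := ℕ)
    rwa [Nat.cofinite_eq_atTop] at this
  have hlim : ∀ t : ℝ, ∃ g : E n → ℝ, t ∈ Icc 0 τ → ContDiff ℝ ∞ g ∧
      ∀ w : List (Fin n), ∀ x, Tendsto (fun j => Dw w (U j t) x) 𝒰 (𝓝 (Dw w g x)) := by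
    intro t
    by_cases ht : t ∈ Icc 0 τ
    · obtain ⟨g, hg, hgl⟩ := ultralim_smooth (Ω := univ) isOpen_univ 𝒰 (fun j => U j t)
        (Eventually.of_forall fun j => (hUs j t ht).contDiffOn)
        (fun w K _ _ => by
          obtain ⟨C, hC⟩ := hUb w
          exact ⟨C, Eventually.of_forall fun j x _ => hC j t ht x⟩)
      exact ⟨g, fun _ => ⟨contDiffOn_univ.1 hg, fun w x => hgl w x (mem_univ x)⟩⟩
    · exact ⟨f, fun h => absurd h ht⟩
  choose u hu using hlim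
  have hus : ∀ t ∈ Icc 0 τ, ContDiff ℝ ∞ (u t) := fun t ht => (hu t ht).1
  have hul : ∀ t ∈ Icc 0 τ, ∀ w x, Tendsto (fun j => Dw w (U j t) x) 𝒰 (𝓝 (Dw w (u t) x)) :=
    fun t ht => (hu t ht).2
  -- mollification errors vanish
  have hε0 : Tendsto (fun j : ℕ => 1 / ((j : ℝ) + 1)) 𝒰 (𝓝 0) :=
    tendsto_one_div_add_atTop_nhds_zero_nat.mono_left hle
  have hJerr : ∀ (g : ℕ → E n → ℝ) (C : ℝ) (x : E n) (a : ℝ), (∀ j, Continuous (g j)) →
      (∀ j y z, |g j y - g j z| ≤ C * ‖y - z‖) → Tendsto (fun j => g j x) 𝒰 (𝓝 a) →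
      Tendsto (fun j => (m j).J (g j) x) 𝒰 (𝓝 a) := by
    intro g C x a hgc hgl hga
    have h1 : Tendsto (fun j => (m j).J (g j) x - g j x) 𝒰 (𝓝 0) := by
      refine squeeze_zero_norm (fun j => ?_) (?_ : Tendsto (fun j : ℕ => |C| * (1 / ((j : ℝ) + 1)))
        𝒰 (𝓝 0))
      · rw [Real.norm_eq_abs]
        refine J_sub_le (m j) (hgc j) fun y hy => ?_
        refine (hgl j (x - y) x).trans ?_
        have : ‖x - y - x‖ = ‖y‖ := by
          rw [sub_sub_cancel_left, norm_neg]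
        rw [this]
        calc C * ‖y‖ ≤ |C| * ‖y‖ := mul_le_mul_of_nonneg_right (le_abs_self C) (norm_nonneg _)
          _ ≤ |C| * (1 / ((j : ℝ) + 1)) := mul_le_mul_of_nonneg_left hy (abs_nonneg _)
      · simpa using hε0.const_mul |C|
    have h2 := h1.add hga
    simpa using h2
  have hLipU : ∀ w : List (Fin n), ∃ C, ∀ j, ∀ t ∈ Icc 0 τ, ∀ x y,
      |Dw w (U j t) x - Dw w (U j t) y| ≤ C * ‖x - y‖ := by
    intro w
    obtain ⟨C, hC0, hC⟩ := exists_unif_words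
      (p := fun w C => ∀ j, ∀ t ∈ Icc 0 τ, ∀ x, |Dw w (U j t) x| ≤ C)
      (fun w C C' hCC h j t ht x => (h j t ht x).trans hCC) (w.length + 1) hUb
    exact ⟨n * C, fun j t ht x y => lip_of_Dw_bound (hUs j t ht) w
      (fun i z => hC (i :: w) (by simp) j t ht z) x y⟩
  have hLipG : ∀ w : List (Fin n), ∃ C, ∀ j, ∀ t ∈ Icc 0 τ, ∀ x y,
      |Dw w (Fop ((m j).J (U j t))) x - Dw w (Fop ((m j).J (U j t))) y| ≤ C * ‖x - y‖ := by
    intro w
    obtain ⟨C, hC0, hC⟩ := exists_unif_words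
      (p := fun w C => ∀ j, ∀ t ∈ Icc 0 τ, ∀ x, |Dw w (Fop ((m j).J (U j t))) x| ≤ C)
      (fun w C C' hCC h j t ht x => (h j t ht x).trans hCC) (w.length + 1) hGb
    exact ⟨n * C, fun j t ht x y => lip_of_Dw_bound (hGs j t ht) w
      (fun i z => hC (i :: w) (by simp) j t ht z) x y⟩
  have hVl : ∀ t ∈ Icc 0 τ, ∀ w x,
      Tendsto (fun j => Dw w ((m j).J (U j t)) x) 𝒰 (𝓝 (Dw w (u t) x)) := by
    intro t ht w x
    obtain ⟨C, hC⟩ := hLipU w
    have h1 := hJerr (fun j => Dw w (U j t)) C x _ (fun j => (contDiff_Dw (hUs j t ht) w).continuous)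
      (fun j y z => hC j t ht y z) (hul t ht w x)
    refine h1.congr fun j => ?_
    rw [hVD j t ht w]
  have hGl : ∀ t ∈ Icc 0 τ, ∀ w x,
      Tendsto (fun j => Dw w (Fop ((m j).J (U j t))) x) 𝒰 (𝓝 (Dw w (Fop (u t)) x)) := by
    intro t ht w x
    obtain ⟨g, hg, hgeq⟩ := Dw_Fop_DP w
    rw [hgeq univ isOpen_univ _ (hus t ht).contDiffOn x (mem_univ x)]
    have h1 : Tendsto (fun j => jet ((m j).J (U j t)) x) 𝒰 (𝓝 (jet (u t) x)) := by
      rw [tendsto_pi_nhds]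
      intro w'
      exact hVl t ht w' x
    have h2 := ((DP_continuous hg).tendsto _).comp h1
    refine h2.congr fun j => ?_
    rw [hgeq univ isOpen_univ _ (hVs j t ht).contDiffOn x (mem_univ x)]
    rfl
  have hWl : ∀ t ∈ Icc 0 τ, ∀ w x,
      Tendsto (fun j => Dw w ((m j).J (Fop ((m j).J (U j t)))) x) 𝒰 (𝓝 (Dw w (Fop (u t)) x)) := by
    intro t ht w x
    obtain ⟨C, hC⟩ := hLipG w
    have h1 := hJerr (fun j => Dw w (Fop ((m j).J (U j t)))) C x _
      (fun j => (contDiff_Dw (hGs j t ht) w).continuous)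
      (fun j y z => hC j t ht y z) (hGl t ht w x)
    refine h1.congr fun j => ?_
    rw [hWD j t ht w]
  refine ⟨u, ⟨fun t ht => (hus t ht).contDiffOn, fun w => ?_, fun w t ht x _ => ?_⟩, ?_, ?_⟩
  · -- joint continuity
    obtain ⟨C1, hC1⟩ := hUt w
    obtain ⟨C2, hC2⟩ := hLipU w
    have key : ∀ s ∈ Icc 0 τ, ∀ t ∈ Icc 0 τ, ∀ x y,
        |Dw w (u t) x - Dw w (u s) y| ≤ (|C1| + |C2|) * max |t - s| ‖x - y‖ := by
      intro s hs t ht x y
      have h1 : ∀ j, |Dw w (U j t) x - Dw w (U j s) y| ≤ (|C1| + |C2|) * max |t - s| ‖x - y‖ := by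
        intro j
        calc |Dw w (U j t) x - Dw w (U j s) y|
            ≤ |Dw w (U j t) x - Dw w (U j s) x| + |Dw w (U j s) x - Dw w (U j s) y| :=
              abs_sub_le _ _ _
          _ ≤ C1 * |t - s| + C2 * ‖x - y‖ := add_le_add (hC1 j s hs t ht x) (hC2 j s hs x y)
          _ ≤ |C1| * max |t - s| ‖x - y‖ + |C2| * max |t - s| ‖x - y‖ := by
              gcongr
              · exact le_abs_self _
              · exact le_max_left _ _
              · exact le_abs_self _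
              · exact le_max_right _ _
          _ = _ := by ring
      have h2 : Tendsto (fun j => |Dw w (U j t) x - Dw w (U j s) y|) 𝒰
          (𝓝 |Dw w (u t) x - Dw w (u s) y|) := ((hul t ht w x).sub (hul s hs w y)).abs
      exact le_of_tendsto h2 (Eventually.of_forall h1)
    have hLip : LipschitzOnWith (Real.toNNReal (|C1| + |C2|))
        (fun p : ℝ × E n => Dw w (u p.1) p.2) (Icc 0 τ ×ˢ univ) := by
      refine LipschitzOnWith.of_dist_le_mul ?_
      rintro ⟨t, x⟩ ⟨ht, -⟩ ⟨s, y⟩ ⟨hs, -⟩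
      rw [Real.coe_toNNReal _ (by positivity), Real.dist_eq, Prod.dist_eq, Real.dist_eq, dist_eq_norm]
      exact key s hs t ht x y
    exact hLip.continuousOn
  · -- the time derivative
    obtain ⟨C, hC⟩ := hWt w
    refine hasDerivWithinAt_of_quadratic (C := C) fun s hs => ?_
    have h1 : ∀ j, |Dw w (U j s) x - Dw w (U j t) x -
        Dw w ((m j).J (Fop ((m j).J (U j t)))) x * (s - t)| ≤ C * |s - t| * |s - t| := fun j =>
      taylor_Icc (h := fun r => Dw w (U j r) x)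
        (k := fun r => Dw w ((m j).J (Fop ((m j).J (U j r)))) x)
        (fun r hr => (hU j).deriv w r hr x) (fun r hr q hq => hC j r hr q hq x) hs ht
    have h2 : Tendsto (fun j => |Dw w (U j s) x - Dw w (U j t) x -
        Dw w ((m j).J (Fop ((m j).J (U j t)))) x * (s - t)|) 𝒰
        (𝓝 |Dw w (u s) x - Dw w (u t) x - Dw w (Fop (u t)) x * (s - t)|) :=
      (((hul s hs w x).sub (hul t ht w x)).sub ((hWl t ht w x).mul_const _)).abs
    exact le_of_tendsto h2 (Eventually.of_forall h1)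
  · -- the initial value
    have h0 : (0 : ℝ) ∈ Icc 0 τ := ⟨le_rfl, hτ.le⟩
    funext x
    have h1 := hul 0 h0 [] x
    have h2 : (fun j => Dw [] (U j 0) x) = fun _ => f x := by
      funext j
      rw [(hU j).init]; rfl
    rw [h2] at h1
    exact tendsto_nhds_unique h1 tendsto_const_nhds
  · -- periodicity
    intro t ht i x
    have h1 := hul t ht [] (x + P • ee i)
    have h2 := hul t ht [] x
    have h3 : (fun j => Dw [] (U j t) (x + P • ee i)) = fun j => Dw [] (U j t) x := by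
      funext j
      exact (hU j).per t ht i x
    rw [h3] at h1
    exact tendsto_nhds_unique h1 h2

end Pool.Agent.GR
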