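import Pool.Agent.Helper6.GR.Torus
import Pool.Agent.Helper34.GR.Local

/-!
# MP_114a94_gt, package P11: global existence on the torus (final form)
-/

set_option autoImplicit false

open scoped ContDiff Topology NNReal
open Set Filter MeasureTheory

namespace Pool.Agent.GR

open Pool.Agent.Helper25.GrimReaper

variable {n : ℕ}

theorem exists_torus_solution {P : ℝ} (hP : 0 < P) {f : E n → ℝ} (hf : ContDiff ℝ ∞ f)
    (hfp : Per P f) {T : ℝ} (_hT : 0 ≤ T) :
    ∃ u : ℝ → E n → ℝ, IsSolOn (Icc 0 T) univ u ∧ u 0 = f ∧ ∀ t ∈ Icc 0 T, Per P (u t) :=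
  exists_torus_solution_of_local hP (local_existence hP n) hf hfp

end Pool.Agent.GR
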